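import Pool.Agent.Helper64.PC.Frc

/-!
# Partition cuts: module BRIDGE (from the forcing relation to `CutData`)
-/

namespace Pool.Agent.Helper95.PC

open Pool.Agent.Helper64.PC Pool.Agent.Helper46.SP Pool.Agent.Helper94.SP Name

section

variable {P : Type} [Preorder P] [OrderTop P]

/-- The property of the name `n` in the definition of the cut. -/
def CutBy (F q x n : Name P) (r : P) : Prop :=
  NFun n r ∧ FMem (rho fun i => {s | ∃ a, FP x i a s ∧ FP n i a s}) F r ∧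
    ∀ j : ℕ, ∀ s ≤ r, ∃ t ≤ s, ∃ b : ℕ, ∀ i a : ℕ, ∀ t' ≤ t, FP q i j t' → FP n i a t' → a < b

theorem ncut_iff (F q x : Name P) (p : P) :
    NCut F q x p ↔ ∀ p' ≤ p, ∃ r ≤ p', ∃ n : Name P, CutBy F q x n r := Iff.rfl

theorem fp_relV {p : P} (x : FName P p ℕ ℕ) (i a : ℕ) (s : P) :
    FP (relN fun i a => {r | x.V i a r}) i a s ↔ ∀ q ≤ s, ∃ r ≤ q, x.V i a r := by
  rw [fp_relN]
  exact fd_iff (fun _ _ h hq => x.mono _ _ _ _ h hq)

/-- The decision of the least bound. -/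
def Bd (q n : Name P) (j c : ℕ) (t : P) : Prop :=
  ∀ i a : ℕ, ∀ t' ≤ t, FP q i j t' → FP n i a t' → a < c

theorem Bd.mono {q n : Name P} {j c : ℕ} {t t' : P} (h : Bd q n j c t) (ht : t' ≤ t) :
    Bd q n j c t' := fun i a s hs => h i a s (hs.trans ht)

/-- The name of the function which gives the least bound on the pieces. -/
def bdName {q n : Name P} {r : P} (h : ∀ j : ℕ, ∀ s ≤ r, ∃ t ≤ s, ∃ b : ℕ, Bd q n j b t) :
    FName P r ℕ ℕ where
  V j c t := Bd q n j c t ∧ ∀ c' < c, ∀ t' ≤ t, ¬ Bd q n j c' t'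
  mono := by
    rintro j c t s ⟨h1, h2⟩ hs
    exact ⟨h1.mono hs, fun c' hc t' ht' => h2 c' hc t' (ht'.trans hs)⟩
  total := by
    intro j t ht
    obtain ⟨t1, ht1, b, hb⟩ := h j t ht
    classical
    have hex : ∃ c, ∃ t' ≤ t1, Bd q n j c t' := ⟨b, t1, le_rfl, hb⟩
    obtain ⟨t', ht', hc⟩ := Nat.find_spec hex
    refine ⟨t', ht'.trans ht1, Nat.find hex, hc, fun c' hc' t'' ht'' hbd => ?_⟩
    exact Nat.find_min hex hc' ⟨t'', ht''.trans ht', hbd⟩
  uniq := by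
    rintro j c c' t _ ⟨h1, h2⟩ ⟨h3, h4⟩
    rcases lt_trichotomy c c' with hc | hc | hc
    · exact absurd h1 (h4 c hc t le_rfl)
    · exact hc
    · exact absurd h3 (h2 c' hc t le_rfl)

theorem exists_cutData (huname : ST_uname) (hB : Bounding P) {F q r' u : Name P} {p₀ : P}
    (hF : NUltra F p₀) (hq : NFun q p₀)
    (hsm : ∀ j, ∀ r ≤ p₀, ¬ FMem (rho fun i => {s | FP q i j s}) F r)
    (hu : NFun u p₀) (hun : ∀ r ≤ p₀, ∀ n, ¬ CutBy F q u n r)
    (hd : ∀ X : Name P, ∀ s ≤ p₀, NFun X s →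
      (NCut F q X s ↔
        ∀ k : ℕ, FMem (rho fun i => {t | ∃ a, FP X i a t ∧ FP3 r' k i a t}) F s)) :
    Nonempty (CutData P p₀) := by
  obtain ⟨U, hU, hcof⟩ := huname P F p₀ hF
  refine ⟨{
    U := U
    cof := hcof
    π := hq.toFName
    small := fun j p hp h => hsm j p hp ((hU _ _).1 h)
    R := fun k i v => {r | FP3 r' k i v r}
    R_mono := fun k i v p q h hqp => FP3.mono h hqp
    R_dense := fun k i v p h => fmem_dense h
    u := hu.toFName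
    u_not := ?_
    cut_sub := ?_
    cut_sup := ?_ }⟩
  · intro f p hp hW
    let nm : FName P p ℕ ℕ :=
      (hu.toFName.map₂ hq.toFName fun _ a b => min a (f b)).below hp
    refine hun p hp (relN fun i a => {r | nm.V i a r}) ⟨nfun_relN nm, ?_, ?_⟩
    · refine (hU _ _).1 (U.up hp hW fun i s hs hfd t ht => ?_)
      obtain ⟨t1, ht1, b, ⟨a, j, ha, hj, haj⟩, hb⟩ := hfd t ht
      refine ⟨t1, ht1, t1, ⟨a, ?_, ?_⟩, le_rfl⟩
      · exact FP.mono (show FP u i a b from ha) hb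
      · rw [fp_relV]
        intro t2 ht2
        refine ⟨t2, le_rfl, a, j, ?_, ?_, ?_⟩
        · exact FP.mono (show FP u i a b from ha) (ht2.trans hb)
        · exact FP.mono (show FP q i j b from hj) (ht2.trans hb)
        · exact (min_eq_left haj).symm
    · intro j s hs
      refine ⟨s, le_rfl, f j + 1, fun i a t ht h1 h2 => ?_⟩
      rw [fp_relV] at h2
      obtain ⟨t2, ht2, a', j', _, hj', hmin⟩ := h2 t le_rfl
      have hjj : j' = j := hq.2.2 i j' j t2 (ht2.trans (ht.trans (hs.trans hp))) hj'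
        (FP.mono h1 ht2)
      rw [hmin, hjj]
      exact Nat.lt_succ_of_le (min_le_right _ _)
  · intro f p hp x hx k
    have hX := nfun_relN x
    have hcut : NCut F q (relN fun i a => {r | x.V i a r}) p := by
      intro p' hp'
      refine ⟨p', le_rfl, _, hX.mono hp', ?_, ?_⟩
      · refine (hU _ _).1 (U.up (hp'.trans hp) (U.univ (hp'.trans hp)) fun i s hs _ t ht => ?_)
        obtain ⟨t1, ht1, a, ha⟩ := x.total i t (ht.trans (hs.trans hp'))
        refine ⟨t1, ht1, t1, ⟨a, ?_, ?_⟩, le_rfl⟩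
        · rw [fp_relV]
          exact fun t2 ht2 => ⟨t2, le_rfl, x.mono _ _ _ _ ha ht2⟩
        · rw [fp_relV]
          exact fun t2 ht2 => ⟨t2, le_rfl, x.mono _ _ _ _ ha ht2⟩
      · intro j s hs
        refine ⟨s, le_rfl, f j + 1, fun i a t ht h1 h2 => ?_⟩
        rw [fp_relV] at h2
        obtain ⟨t2, ht2, ha⟩ := h2 t le_rfl
        refine Nat.lt_succ_of_le (hx i t2 (ht2.trans (ht.trans (hs.trans hp'))) a j ha ?_)
        exact FP.mono h1 ht2
    have h1 := (hd _ p hp hX).1 hcut k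
    refine U.up hp ((hU _ _).2 h1) fun i s hs hfd t ht => ?_
    obtain ⟨t1, ht1, b, ⟨a, ha, hr⟩, hb⟩ := hfd t ht
    rw [fp_relV] at ha
    obtain ⟨t2, ht2, ha2⟩ := ha t1 hb
    exact ⟨t2, ht2.trans ht1, t2, ⟨a, ha2, FP3.mono hr (ht2.trans hb)⟩, le_rfl⟩
  · intro p hp x hx
    have hX := nfun_relN x
    have hcut : NCut F q (relN fun i a => {r | x.V i a r}) p := by
      refine (hd _ p hp hX).2 fun k => ?_
      refine (hU _ _).1 (U.up hp (hx k) fun i s hs hfd t ht => ?_)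
      obtain ⟨t1, ht1, b, ⟨a, ha, hr⟩, hb⟩ := hfd t ht
      refine ⟨t1, ht1, t1, ⟨a, ?_, FP3.mono hr hb⟩, le_rfl⟩
      rw [fp_relV]
      exact fun t2 ht2 => ⟨t2, le_rfl, x.mono _ _ _ _ ha (ht2.trans hb)⟩
    obtain ⟨r, hr, n, hn, hnF, hnb⟩ := hcut p le_rfl
    have hnb' : ∀ j : ℕ, ∀ s ≤ r, ∃ t ≤ s, ∃ b : ℕ, Bd q n j b t := hnb
    obtain ⟨q', hq', f, hf⟩ := hB r (bdName hnb')
    have hq'0 : q' ≤ p₀ := hq'.trans (hr.trans hp)
    refine ⟨q', hq'.trans hr, f, ?_⟩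
    have h2 : U.W (fun i => {s | ∃ a, FP (relN fun i a => {r | x.V i a r}) i a s ∧ FP n i a s})
        q' := (hU _ _).2 (fmem_mono hnF hq')
    refine U.up hq'0 h2 fun i s hs hfd t ht => ?_
    obtain ⟨t1, ht1, b, ⟨a, ha, hna⟩, hb⟩ := hfd t ht
    rw [fp_relV] at ha
    obtain ⟨t2, ht2, ha2⟩ := ha t1 hb
    have ht2r : t2 ≤ q' := ht2.trans (ht1.trans (ht.trans hs))
    obtain ⟨t3, ht3, j, hj⟩ := hq.2.1 i t2 (ht2r.trans hq'0)
    obtain ⟨t4, ht4, c, hc⟩ := (bdName hnb').total j t3 ((ht3.trans ht2r).trans hq')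
    have hcf : c ≤ f j := hf j c t4 (ht4.trans (ht3.trans ht2r)) hc
    have hac : a < c := hc.1 i a t4 le_rfl (FP.mono hj ht4)
      (FP.mono hna (ht4.trans (ht3.trans (ht2.trans hb))))
    refine ⟨t4, ht4.trans (ht3.trans (ht2.trans ht1)), t4, ⟨a, j, ?_, ?_, ?_⟩, le_rfl⟩
    · exact x.mono _ _ _ _ ha2 (ht4.trans ht3)
    · exact FP.mono hj ht4
    · exact (hac.le).trans hcf

end

theorem st_bridge (hfun : ST_fun) (hultra : ST_ultra) (hpart : ST_part) (hcut : ST_cut)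
    (hint : ST_int) (hintK : ST_intK) (huname : ST_uname) : ST_bridge := by
  intro P _ _ hB hno p
  show Fo Fm.q1 Fin.elim0 p
  unfold Fm.q1
  rw [fo_all]; intro w
  rw [fo_all]; intro F
  rw [fo_all]; intro q
  rw [fo_imp]; intro p1 hp1 hw
  rw [fo_imp]; intro p2 hp2 hF
  rw [fo_imp]; intro p3 hp3 hq
  rw [fo_imp]; intro p4 hp4 hni
  rw [fo_neg]; intro p5 hp5 hdel
  set v : Fin 3 → Name P := Fin.cons q (Fin.cons F (Fin.cons w Fin.elim0)) with hv
  have hw1 : FEq w omega p1 := (fo_isOmega v 2 p1).1 hw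
  have hF2 : NUltra F p2 := (hultra P 3 v 2 1 p2 (feq_mono hw1 hp2)).1 hF
  have hq3 := (hpart P 3 v 2 1 0 p3 (feq_mono hw1 (hp3.trans hp2)) (hF2.mono hp3)).1 hq
  unfold Fm.cutDelta at hdel
  rw [fo_ex] at hdel
  obtain ⟨p6, hp6, r', hr'⟩ := hdel p5 le_rfl
  have hp64 : p6 ≤ p4 := hp6.trans hp5
  have hp63 : p6 ≤ p3 := hp64.trans hp4
  have hw6 : FEq w omega p6 := feq_mono hw1 (hp63.trans (hp3.trans hp2))
  have hF6 : NUltra F p6 := hF2.mono (hp63.trans hp3)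
  have hq6 : NFun q p6 := hq3.1.mono hp63
  -- the function which is not in the cut
  obtain ⟨u, p7, hp7, hu, hun⟩ : ∃ u : Name P, ∃ p7 ≤ p6, NFun u p7 ∧
      ∀ r ≤ p7, ∀ n, ¬ CutBy F q u n r := by
    by_contra hcon
    push Not at hcon
    refine hni p6 hp64 ?_
    refine (fo_ex _ v p6).2 ?_
    intro s hs
    refine ⟨s, le_rfl, relN fun _ _ => Set.univ, ?_⟩
    rw [fo_all]; intro x
    rw [fo_imp]; intro s1 hs1 hx
    have hs16 : s1 ≤ p6 := hs1.trans hs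
    have hx1 : NFun x s1 :=
      (hfun P 5 _ _ _ s1 (feq_mono hw6 hs16)).1 hx
    rw [fo_iff]
    intro s2 hs2
    have hs26 : s2 ≤ p6 := hs2.trans hs16
    have hL : Fo (Fm.inCut (Fin.succ (Fin.succ 2)) (Fin.succ (Fin.succ 1))
        (Fin.succ (Fin.succ 0)) 0) (Fin.cons x (Fin.cons (relN fun _ _ => Set.univ) v)) s2 := by
      refine (hcut P 5 _ _ _ _ _ s2 (feq_mono hw6 hs26) (hF6.mono hs26) (hq6.mono hs26)
        (hx1.mono hs2)).2 ?_
      intro s3 hs3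
      obtain ⟨r, hr, n, hn⟩ := hcon x s3 (hs3.trans hs26) (hx1.mono (hs3.trans hs2))
      exact ⟨r, hr, n, hn⟩
    refine ⟨fun _ => ?_, fun _ => hL⟩
    refine (hint P 5 _ _ _ _ s2 (hF6.mono hs26) (hx1.mono hs2)).2 ?_
    obtain ⟨U, hU, _⟩ := huname P F s2 (hF6.mono hs26)
    refine (hU _ _).1 (U.up le_rfl (U.univ le_rfl) fun i t ht _ t1 ht1 => ?_)
    obtain ⟨t2, ht2, a, ha⟩ := hx1.2.1 i t1 (ht1.trans (ht.trans hs2))
    refine ⟨t2, ht2, t2, ⟨a, ha, ?_⟩, le_rfl⟩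
    exact (fp_relN (fun _ _ => Set.univ) i a t2).2 (Fd.of_mem (Set.mem_univ t2) le_rfl)
  have hdelta : ∀ X : Name P, ∀ s ≤ p7, NFun X s →
      (NCut F q X s ↔
        ∀ k : ℕ, FMem (rho fun i => {t | ∃ a, FP X i a t ∧ FP3 r' k i a t}) F s) := by
    intro X s hs hX
    have hs6 : s ≤ p6 := hs.trans hp7
    rw [fo_all] at hr'
    have h1 := hr' X
    rw [fo_imp] at h1
    have h2 := h1 s hs6 ((hfun P 5 _ _ _ s (feq_mono hw6 hs6)).2 hX)
    rw [fo_iff] at h2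
    have h3 := h2 s le_rfl
    rw [show Fo (Fm.inCut (Fin.succ (Fin.succ 2)) (Fin.succ (Fin.succ 1))
        (Fin.succ (Fin.succ 0)) 0) (Fin.cons X (Fin.cons r' v)) s ↔ NCut F q X s from
        hcut P 5 _ _ _ _ _ s (feq_mono hw6 hs6) (hF6.mono hs6) (hq6.mono hs6) hX] at h3
    rw [h3, fo_all_omega _ _ _ (feq_mono hw6 hs6)]
    refine forall_congr' fun k => ?_
    exact hintK P 6 _ _ _ _ _ s k (hF6.mono hs6) hX (feq_refl _ _)
  obtain ⟨D⟩ := exists_cutData huname hB (hF6.mono hp7) (hq6.mono hp7)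
    (fun j r hr => hq3.2.2 j r (hr.trans (hp7.trans hp63))) hu hun hdelta
  exact hno p7 D

end Pool.Agent.Helper95.PC
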